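import Mathlib
import Pool.Agent.Helper66.MC.Cox

/-!
# SX-G0: the symmetric group as a Coxeter group of type A

Hints.  `cox n : (CoxeterMatrix.A n).Group →* Perm (Fin (n + 1))` is the lift of the adjacent
transpositions (`CoxeterSystem.lift` for `(CoxeterMatrix.A n).toCoxeterSystem`).
* `isLiftable`: case distinction on the Coxeter matrix (orders `1`, `2`, `3` of the products).
* surjective: `Equiv.Perm.mclosure_swap_castSucc_succ`.
* injective: let `rho` be the geometric representation of `Helper66/MC/Cox.lean` for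
  `cs = (CoxeterMatrix.A n).toCoxeterSystem`, and `L : (Fin n →₀ ℝ) →ₗ (Fin (n + 1) → ℝ)`,
  `L (al i) = e_{i.castSucc} - e_{i.succ}` (injective: partial sums).  On generators (`sig_apply`,
  `form_al`, `kk i j = - cos (π / M i j)`, so `1`, `-1/2` or `0`):
  `L (rho w v) = (L v) ∘ (cox n w)⁻¹`, i.e. `L (rho w (al i)) = e_{π(w)(i.castSucc)} -
  e_{π(w)(i.succ)}`.  If `cox n w = 1` then `rho w = 1`, so `w` has no right descent (`rho_neg`,
  `not_both`), so `w = 1`.
* `lt_of_not_descent`: `rho_pos`: `e_a - e_b` is a non-negative combination of the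
  `e_{j.castSucc} - e_{j.succ}`, so `a ≤ b` (partial sums), `a = π(w)(i.castSucc) ≠ b`.
-/

set_option autoImplicit false

namespace Pool.Agent.Helper89.SX.GLn

open Equiv CoxeterSystem

/-- The adjacent transpositions. -/
def adj (n : ℕ) (i : Fin n) : Perm (Fin (n + 1)) := swap i.castSucc i.succ

private theorem swap3 {α : Type*} [DecidableEq α] [Fintype α] {a b c : α} (ab : a ≠ b)
    (ac : a ≠ c) (bc : b ≠ c) : (swap a b * swap a c) ^ 3 = 1 := by
  have h := (Equiv.Perm.isThreeCycle_swap_mul_swap_same ab ac bc).orderOf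
  rw [← h]
  exact pow_orderOf_eq_one _

theorem isLiftable (n : ℕ) : (CoxeterMatrix.A n).IsLiftable (adj n) := by
  intro i j
  have hM : (CoxeterMatrix.A n) i j =
      if i = j then 1 else (if (j : ℕ) + 1 = i ∨ (i : ℕ) + 1 = j then 3 else 2) := rfl
  rw [hM]
  unfold adj
  split_ifs with h1 h2
  · subst h1
    rw [pow_one, swap_mul_self]
  · rcases h2 with h2 | h2
    · have e : j.succ = i.castSucc := by
        ext
        simpa using h2
      rw [← e, swap_comm j.castSucc j.succ]
      refine swap3 ?_ ?_ ?_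
      · rw [e]
        exact (Fin.castSucc_lt_succ).ne
      · exact (Fin.castSucc_lt_succ).ne'
      · intro h
        have h' := congrArg Fin.val h
        simp only [Fin.val_succ, Fin.val_castSucc] at h'
        omega
    · have e : i.succ = j.castSucc := by
        ext
        simpa using h2
      rw [← e, swap_comm i.castSucc i.succ]
      refine swap3 ?_ ?_ ?_
      · exact (Fin.castSucc_lt_succ).ne'
      · rw [e]
        exact (Fin.castSucc_lt_succ).ne
      · intro h
        have h' := congrArg Fin.val h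
        simp only [Fin.val_succ, Fin.val_castSucc] at h'
        omega
  · have hne : (i : ℕ) ≠ j := fun h => h1 (Fin.ext h)
    have hd : Perm.Disjoint (swap i.castSucc i.succ) (swap j.castSucc j.succ) := by
      intro x
      by_cases hx : x = i.castSucc ∨ x = i.succ
      · right
        refine swap_apply_of_ne_of_ne ?_ ?_
        · rintro rfl
          rcases hx with hx | hx
          · have h' := congrArg Fin.val hx
            simp only [Fin.val_castSucc] at h'
            omega
          · have h' := congrArg Fin.val hx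
            simp only [Fin.val_succ, Fin.val_castSucc] at h'
            exact h2 (Or.inr h'.symm)
        · rintro rfl
          rcases hx with hx | hx
          · have h' := congrArg Fin.val hx
            simp only [Fin.val_succ, Fin.val_castSucc] at h'
            exact h2 (Or.inl h')
          · have h' := congrArg Fin.val hx
            simp only [Fin.val_succ] at h'
            omega
      · left
        exact swap_apply_of_ne_of_ne (fun h => hx (Or.inl h)) (fun h => hx (Or.inr h))
    rw [pow_two, hd.commute.symm.mul_mul_mul_comm, swap_mul_self, swap_mul_self, one_mul]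

/-- The homomorphism from the Coxeter group of type A to the symmetric group. -/
noncomputable def cox (n : ℕ) : (CoxeterMatrix.A n).Group →* Perm (Fin (n + 1)) :=
  (CoxeterMatrix.A n).toCoxeterSystem.lift ⟨adj n, isLiftable n⟩

open Helper66.MC in
/-- The geometric representation inside the permutation representation. -/
private noncomputable def LL (n : ℕ) : (Fin n →₀ ℝ) →ₗ[ℝ] (Fin (n + 1) → ℝ) :=
  Finsupp.linearCombination ℝ
    (fun i => (Pi.single i.castSucc 1 - Pi.single i.succ 1 : Fin (n + 1) → ℝ))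

private theorem LL_single (n : ℕ) (i : Fin n) (c : ℝ) :
    LL n (Finsupp.single i c) =
      c • (Pi.single i.castSucc 1 - Pi.single i.succ 1 : Fin (n + 1) → ℝ) := by
  unfold LL
  rw [Finsupp.linearCombination_single]

private theorem LL_kk (n : ℕ) (i j : Fin n) :
    2 * Helper66.MC.kk (CoxeterMatrix.A n) j i =
      (Pi.single j.castSucc 1 - Pi.single j.succ 1 : Fin (n + 1) → ℝ) i.castSucc -
        (Pi.single j.castSucc 1 - Pi.single j.succ 1 : Fin (n + 1) → ℝ) i.succ := by
  have hM : (CoxeterMatrix.A n) j i =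
      if j = i then 1 else (if (i : ℕ) + 1 = j ∨ (j : ℕ) + 1 = i then 3 else 2) := rfl
  have e1 : (i.castSucc = j.castSucc) ↔ (i : ℕ) = j := by
    rw [Fin.ext_iff]; simp
  have e2 : (i.castSucc = j.succ) ↔ (i : ℕ) = j + 1 := by
    rw [Fin.ext_iff]; simp
  have e3 : (i.succ = j.castSucc) ↔ (i : ℕ) + 1 = j := by
    rw [Fin.ext_iff]; simp
  have e4 : (i.succ = j.succ) ↔ (i : ℕ) = j := by
    rw [Fin.ext_iff]; simp
  have e5 : (j = i) ↔ (i : ℕ) = j := by
    rw [Fin.ext_iff]
    exact eq_comm
  unfold Helper66.MC.kk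
  rw [hM]
  simp only [Pi.sub_apply, Pi.single_apply, e1, e2, e3, e4, e5]
  by_cases h1 : (i : ℕ) = j
  · have h2 : ¬ ((i : ℕ) = j + 1) := by omega
    have h3 : ¬ ((i : ℕ) + 1 = j) := by omega
    simp only [if_pos h1, if_neg h2, if_neg h3, Nat.cast_one, div_one, Real.cos_pi]
    norm_num
  · by_cases h2 : (i : ℕ) = j + 1
    · have h3 : ¬ ((i : ℕ) + 1 = j) := by omega
      have h4 : (i : ℕ) + 1 = j ∨ (j : ℕ) + 1 = i := by omega
      simp only [if_neg h1, if_pos h2, if_neg h3, if_pos h4, Nat.cast_ofNat, Real.cos_pi_div_three]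
      norm_num
    · by_cases h3 : (i : ℕ) + 1 = j
      · have h4 : (i : ℕ) + 1 = j ∨ (j : ℕ) + 1 = i := by omega
        simp only [if_neg h1, if_neg h2, if_pos h3, if_pos h4, Nat.cast_ofNat,
          Real.cos_pi_div_three]
        norm_num
      · have h4 : ¬ ((i : ℕ) + 1 = j ∨ (j : ℕ) + 1 = i) := by omega
        simp only [if_neg h1, if_neg h2, if_neg h3, if_neg h4, Nat.cast_ofNat,
          Real.cos_pi_div_two]
        norm_num

private theorem LL_form (n : ℕ) (i : Fin n) (v : Fin n →₀ ℝ) :
    2 * Helper66.MC.form (CoxeterMatrix.A n) i v =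
      LL n v i.castSucc - LL n v i.succ := by
  have h : (2 : ℝ) • Helper66.MC.form (CoxeterMatrix.A n) i =
      ((LinearMap.proj i.castSucc : (Fin (n + 1) → ℝ) →ₗ[ℝ] ℝ) -
        (LinearMap.proj i.succ : (Fin (n + 1) → ℝ) →ₗ[ℝ] ℝ)) ∘ₗ LL n := by
    refine Finsupp.lhom_ext fun j c => ?_
    rw [LinearMap.smul_apply, LinearMap.comp_apply, LL_single, LinearMap.sub_apply,
      LinearMap.proj_apply, LinearMap.proj_apply, Pi.smul_apply, Pi.smul_apply, smul_eq_mul,
      smul_eq_mul, smul_eq_mul, ← mul_sub, ← LL_kk]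
    unfold Helper66.MC.form
    rw [Finsupp.linearCombination_single, smul_eq_mul]
    ring
  have h2 := LinearMap.congr_fun h v
  rw [LinearMap.smul_apply, LinearMap.comp_apply, smul_eq_mul] at h2
  exact h2

private theorem LL_sig (n : ℕ) (i : Fin n) (v : Fin n →₀ ℝ) (x : Fin (n + 1)) :
    LL n (Helper66.MC.sig (CoxeterMatrix.A n) i v) x = LL n v (adj n i x) := by
  rw [Helper66.MC.sig_apply, map_sub, map_smul, LL_form, Pi.sub_apply, Pi.smul_apply]
  unfold Helper66.MC.al
  rw [LL_single, one_smul, Pi.sub_apply, smul_eq_mul]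
  unfold adj
  have hne : i.castSucc ≠ i.succ := (Fin.castSucc_lt_succ).ne
  by_cases h1 : x = i.castSucc
  · subst h1
    rw [swap_apply_left, Pi.single_eq_same, Pi.single_eq_of_ne hne]
    ring
  · by_cases h2 : x = i.succ
    · subst h2
      rw [swap_apply_right, Pi.single_eq_same, Pi.single_eq_of_ne hne.symm]
      ring
    · rw [swap_apply_of_ne_of_ne h1 h2, Pi.single_eq_of_ne h1, Pi.single_eq_of_ne h2]
      ring

private theorem LL_rho (n : ℕ) {W : Type*} [Group W] (cs : CoxeterSystem (CoxeterMatrix.A n) W)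
    (π : W →* Perm (Fin (n + 1))) (hπ : ∀ i, π (cs.simple i) = adj n i) (w : W) :
    ∀ (v : Fin n →₀ ℝ) (x : Fin (n + 1)),
      LL n (Helper66.MC.rho cs w v) x = LL n v ((π w)⁻¹ x) := by
  refine cs.simple_induction_left (p := fun w => ∀ (v : Fin n →₀ ℝ) (x : Fin (n + 1)),
      LL n (Helper66.MC.rho cs w v) x = LL n v ((π w)⁻¹ x)) w ?_ ?_
  · intro v x
    rw [map_one, map_one, inv_one]
    rfl
  · intro w i ih v x
    rw [map_mul, map_mul, Helper66.MC.rho_simple, Module.End.mul_apply, LL_sig, ih, hπ,
      mul_inv_rev, Perm.mul_apply]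
    have h1 : (adj n i)⁻¹ = adj n i := swap_inv _ _
    rw [h1]

private theorem LL_sum (n : ℕ) (k : Fin n) (v : Fin n →₀ ℝ) :
    ∑ x ∈ Finset.univ.filter (fun x => x ≤ k.castSucc), LL n v x = v k := by
  have h : (∑ x ∈ Finset.univ.filter (fun x : Fin (n + 1) => x ≤ k.castSucc),
      (LinearMap.proj x : (Fin (n + 1) → ℝ) →ₗ[ℝ] ℝ)) ∘ₗ LL n = Finsupp.lapply k := by
    refine Finsupp.lhom_ext fun j c => ?_
    rw [LinearMap.comp_apply, LL_single, LinearMap.sum_apply, Finsupp.lapply_apply,
      Finsupp.single_apply]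
    simp only [LinearMap.proj_apply, Pi.smul_apply, Pi.sub_apply, smul_eq_mul, Pi.single_apply]
    rw [← Finset.mul_sum, Finset.sum_sub_distrib, Finset.sum_ite_eq', Finset.sum_ite_eq']
    simp only [Finset.mem_filter, Finset.mem_univ, true_and]
    have e1 : (j.castSucc ≤ k.castSucc) ↔ (j : ℕ) ≤ k := by
      rw [Fin.le_iff_val_le_val]; simp
    have e2 : (j.succ ≤ k.castSucc) ↔ (j : ℕ) + 1 ≤ k := by
      rw [Fin.le_iff_val_le_val]; simp
    have e3 : (j = k) ↔ (j : ℕ) = k := Fin.ext_iff
    simp only [e1, e2, e3]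
    by_cases h1 : (j : ℕ) = k
    · have h2 : (j : ℕ) ≤ k := by omega
      have h3 : ¬ ((j : ℕ) + 1 ≤ k) := by omega
      simp only [if_pos h1, if_pos h2, if_neg h3]
      ring
    · by_cases h2 : (j : ℕ) ≤ k
      · have h3 : ((j : ℕ) + 1 ≤ k) := by omega
        simp only [if_neg h1, if_pos h2, if_pos h3]
        ring
      · have h3 : ¬ ((j : ℕ) + 1 ≤ k) := by omega
        simp only [if_neg h1, if_neg h2, if_neg h3]
        ring
  have h2 := LinearMap.congr_fun h v
  rw [LinearMap.comp_apply, LinearMap.sum_apply] at h2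
  exact h2

private theorem LL_inj (n : ℕ) {v v' : Fin n →₀ ℝ} (h : ∀ x, LL n v x = LL n v' x) : v = v' := by
  ext k
  rw [← LL_sum n k v, ← LL_sum n k v']
  exact Finset.sum_congr rfl fun x _ => h x

private theorem cox_simple (n : ℕ) (i : Fin n) :
    cox n ((CoxeterMatrix.A n).toCoxeterSystem.simple i) = adj n i :=
  (CoxeterMatrix.A n).toCoxeterSystem.lift_apply_simple (isLiftable n) i

theorem cox_bijective (n : ℕ) : Function.Bijective (cox n) := by
  constructor
  · rw [injective_iff_map_eq_one]
    intro w hw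
    by_contra hne
    obtain ⟨i, hi⟩ := (CoxeterMatrix.A n).toCoxeterSystem.exists_rightDescent_of_ne_one hne
    have h1 : ∀ v, Helper66.MC.rho (CoxeterMatrix.A n).toCoxeterSystem w v = v := by
      intro v
      refine LL_inj n fun x => ?_
      rw [LL_rho n (CoxeterMatrix.A n).toCoxeterSystem (cox n) (cox_simple n) w v x, hw, inv_one,
        Perm.one_apply]
    refine Helper66.MC.not_both (CoxeterMatrix.A n).toCoxeterSystem w i ?_
      (Helper66.MC.rho_neg (CoxeterMatrix.A n).toCoxeterSystem w i hi)
    intro x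
    rw [h1]
    unfold Helper66.MC.al
    rw [Finsupp.single_apply]
    split_ifs
    · exact zero_le_one
    · exact le_rfl
  · intro σ
    have h1 : σ ∈ Submonoid.closure (Set.range fun i : Fin n => swap i.castSucc i.succ) := by
      rw [Equiv.Perm.mclosure_swap_castSucc_succ]
      exact Submonoid.mem_top σ
    have h2 : Submonoid.closure (Set.range fun i : Fin n => swap i.castSucc i.succ) ≤
        MonoidHom.mrange (cox n) := by
      rw [Submonoid.closure_le]
      rintro _ ⟨i, rfl⟩
      exact ⟨(CoxeterMatrix.A n).toCoxeterSystem.simple i, cox_simple n i⟩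
    exact h2 h1

/-- The symmetric group as a Coxeter group of type A. -/
noncomputable def csA (n : ℕ) : CoxeterSystem (CoxeterMatrix.A n) (Perm (Fin (n + 1))) :=
  ⟨(MulEquiv.ofBijective (cox n) (cox_bijective n)).symm⟩

theorem csA_simple (n : ℕ) (i : Fin n) : (csA n).simple i = adj n i :=
  cox_simple n i

theorem lt_of_not_descent (n : ℕ) (w : Perm (Fin (n + 1))) (i : Fin n)
    (h : ¬ (csA n).IsRightDescent w i) : w i.castSucc < w i.succ := by
  by_contra hcon
  have hne : w i.succ ≠ w i.castSucc := fun e => (Fin.castSucc_lt_succ).ne' (w.injective e)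
  have hlt : w i.succ < w i.castSucc := lt_of_le_of_ne (not_lt.1 hcon) hne
  have hlast : w i.succ ≠ Fin.last n := (lt_of_lt_of_le hlt (Fin.le_last _)).ne
  have hk : ((w i.succ).castPred hlast).castSucc = w i.succ := Fin.castSucc_castPred _ _
  have hpos := Helper66.MC.rho_pos (csA n) w i h ((w i.succ).castPred hlast)
  rw [← LL_sum n] at hpos
  simp only [LL_rho n (csA n) (MonoidHom.id _) (csA_simple n) w, MonoidHom.id_apply] at hpos
  unfold Helper66.MC.al at hpos
  rw [LL_single, one_smul, hk] at hpos
  simp only [Pi.sub_apply, Pi.single_apply] at hpos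
  have e1 : ∀ (x y : Fin (n + 1)), (w⁻¹ x = y) ↔ (x = w y) := fun x y => Perm.inv_eq_iff_eq
  simp only [e1] at hpos
  rw [Finset.sum_sub_distrib, Finset.sum_ite_eq', Finset.sum_ite_eq'] at hpos
  simp only [Finset.mem_filter, Finset.mem_univ, true_and] at hpos
  rw [if_neg (not_le.2 hlt), if_pos le_rfl] at hpos
  norm_num at hpos

end Pool.Agent.Helper89.SX.GLn
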