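import Mathlib
import Pool.Agent.Helper89.SX.Defs

/-!
# SX-G: the general linear group: torus, unipotent group, monomial matrices
-/

set_option autoImplicit false

namespace Pool.Agent.Helper89.SX.GLn

open Matrix Equiv

variable {n : ℕ} {F : Type*} [Field F]

/-- The diagonal matrices. -/
def dgl : (Fin (n + 1) → Fˣ) →* GL (Fin (n + 1)) F where
  toFun c := ⟨diagonal fun i => (c i : F), diagonal fun i => ((c i)⁻¹ : Fˣ), by
    rw [diagonal_mul_diagonal]; simp, by rw [diagonal_mul_diagonal]; simp⟩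
  map_one' := by ext i j; simp [Matrix.one_apply, Matrix.diagonal_apply]
  map_mul' c d := by
    apply Units.ext
    change diagonal (fun i => ((c i * d i : Fˣ) : F)) = diagonal (fun i => (c i : F)) *
      diagonal (fun i => (d i : F))
    rw [diagonal_mul_diagonal]
    simp

/-- The permutation matrices: `e_j ↦ e_{σ j}`. -/
def pm : Perm (Fin (n + 1)) →* GL (Fin (n + 1)) F where
  toFun σ := ⟨Matrix.of fun i j => if i = σ j then 1 else 0,
    Matrix.of fun i j => if i = σ⁻¹ j then 1 else 0, by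
      ext i j
      simp [Matrix.mul_apply, Matrix.one_apply], by
      ext i j
      simp [Matrix.mul_apply, Matrix.one_apply]⟩
  map_one' := by ext i j; simp [Matrix.one_apply]
  map_mul' σ τ := by
    ext i j
    simp [Matrix.mul_apply]

/-- The inclusion matrix of the coordinates `i, i + 1`. -/
def inc (F : Type*) [Field F] (i : Fin n) : Matrix (Fin (n + 1)) (Fin 2) F :=
  Matrix.of fun a b => if a = ![i.castSucc, i.succ] b then 1 else 0

theorem inc_transpose_mul (i : Fin n) : (inc F i)ᵀ * inc F i = 1 := by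
  ext a b
  have h : i.castSucc ≠ i.succ := (Fin.castSucc_lt_succ).ne
  fin_cases a <;> fin_cases b <;>
    simp [inc, Matrix.mul_apply, h, h.symm]

/-- The matrix of `x` in the coordinates `i, i + 1`. -/
def embM (i : Fin n) (x : Matrix (Fin 2) (Fin 2) F) : Matrix (Fin (n + 1)) (Fin (n + 1)) F :=
  1 + inc F i * (x - 1) * (inc F i)ᵀ

theorem embM_mul (i : Fin n) (x y : Matrix (Fin 2) (Fin 2) F) :
    embM i x * embM i y = embM i (x * y) := by
  have h := inc_transpose_mul (n := n) (F := F) i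
  have h1 : inc F i * (x - 1) * (inc F i)ᵀ * (inc F i * (y - 1) * (inc F i)ᵀ) =
      inc F i * ((x - 1) * (y - 1)) * (inc F i)ᵀ := by
    calc inc F i * (x - 1) * (inc F i)ᵀ * (inc F i * (y - 1) * (inc F i)ᵀ)
        = inc F i * (x - 1) * ((inc F i)ᵀ * inc F i) * (y - 1) * (inc F i)ᵀ := by
          simp only [Matrix.mul_assoc]
      _ = _ := by rw [h, Matrix.mul_one]; simp only [Matrix.mul_assoc]
  have h2 : x * y - 1 = (x - 1) + (y - 1) + (x - 1) * (y - 1) := by
    noncomm_ring
  unfold embM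
  rw [Matrix.add_mul, Matrix.one_mul, Matrix.mul_add, Matrix.mul_one, h1, h2]
  simp only [Matrix.mul_add, Matrix.add_mul]
  abel

theorem embM_one (i : Fin n) : embM i (1 : Matrix (Fin 2) (Fin 2) F) = 1 := by
  simp [embM]

/-- The homomorphism `SL₂ → GL_{n+1}` in the coordinates `i, i + 1`. -/
def phi (i : Fin n) : SpecialLinearGroup (Fin 2) F →* GL (Fin (n + 1)) F where
  toFun x := ⟨embM i x.1, embM i (x⁻¹).1, by
      have h : x.1 * (x⁻¹).1 = 1 := congrArg Subtype.val (mul_inv_cancel x)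
      rw [embM_mul, h, embM_one], by
      have h : (x⁻¹).1 * x.1 = 1 := congrArg Subtype.val (inv_mul_cancel x)
      rw [embM_mul, h, embM_one]⟩
  map_one' := by
    apply Units.ext
    exact embM_one i
  map_mul' x y := by
    apply Units.ext
    exact (embM_mul i _ _).symm

theorem dgl_apply (c : Fin (n + 1) → Fˣ) (i j : Fin (n + 1)) :
    (dgl c : GL (Fin (n + 1)) F) i j = if i = j then (c i : F) else 0 := by
  change diagonal (fun i => (c i : F)) i j = _
  rw [diagonal_apply]

theorem pm_apply (σ : Perm (Fin (n + 1))) (i j : Fin (n + 1)) :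
    (pm σ : GL (Fin (n + 1)) F) i j = if i = σ j then 1 else 0 := rfl

theorem dgl_mul_pm (c : Fin (n + 1) → Fˣ) (σ : Perm (Fin (n + 1))) :
    (dgl c : GL (Fin (n + 1)) F) * pm σ = pm σ * dgl (fun j => c (σ j)) := by
  apply Units.ext
  ext i j
  change (diagonal (fun i => (c i : F)) * Matrix.of fun i j => if i = σ j then (1 : F) else 0) i j =
    ((Matrix.of fun i j => if i = σ j then (1 : F) else 0) * diagonal fun j => (c (σ j) : F)) i j
  rw [diagonal_mul, mul_diagonal]
  simp only [of_apply]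
  split_ifs with h
  · rw [h, mul_one, one_mul]
  · simp

theorem dgl_injective : Function.Injective (dgl : (Fin (n + 1) → Fˣ) →* GL (Fin (n + 1)) F) := by
  intro c d h
  funext i
  have h1 := congrArg (fun g : GL (Fin (n + 1)) F => g i i) h
  simp only [dgl_apply, if_true] at h1
  exact Units.ext h1

/-- The torus of diagonal matrices. -/
def T (n : ℕ) (F : Type*) [Field F] : Subgroup (GL (Fin (n + 1)) F) := dgl.range

/-- The group of upper unitriangular matrices. -/
def U (n : ℕ) (F : Type*) [Field F] : Subgroup (GL (Fin (n + 1)) F) where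
  carrier := {g | (∀ i j, j < i → g i j = 0) ∧ ∀ i, g i i = 1}
  one_mem' := ⟨fun i j h => by simp [h.ne'], fun i => by simp⟩
  mul_mem' := by
    rintro g h ⟨hg, hg'⟩ ⟨hh, hh'⟩
    refine ⟨fun i j hij => ?_, fun i => ?_⟩
    · change ((g : Matrix (Fin (n + 1)) (Fin (n + 1)) F) * (h : Matrix (Fin (n + 1)) (Fin (n + 1)) F)) i j = 0
      rw [Matrix.mul_apply]
      refine Finset.sum_eq_zero fun k _ => ?_
      rcases lt_or_ge k i with hk | hk
      · rw [hg i k hk, zero_mul]
      · rw [hh k j (lt_of_lt_of_le hij hk), mul_zero]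
    · change ((g : Matrix (Fin (n + 1)) (Fin (n + 1)) F) * (h : Matrix (Fin (n + 1)) (Fin (n + 1)) F)) i i = 1
      rw [Matrix.mul_apply, Finset.sum_eq_single i]
      · rw [hg', hh', one_mul]
      · intro k _ hk
        rcases lt_or_gt_of_ne hk with hk | hk
        · rw [hg i k hk, zero_mul]
        · rw [hh k i hk, mul_zero]
      · intro hi
        exact absurd (Finset.mem_univ i) hi
  inv_mem' := by
    rintro g ⟨hg, hg'⟩
    have hinv : ((g⁻¹ : GL (Fin (n + 1)) F) : Matrix (Fin (n + 1)) (Fin (n + 1)) F) = (g : Matrix (Fin (n + 1)) (Fin (n + 1)) F)⁻¹ :=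
      Matrix.coe_units_inv g
    have hu : Invertible (g : Matrix (Fin (n + 1)) (Fin (n + 1)) F) := g.invertible
    have h1 : Matrix.BlockTriangular (g : Matrix (Fin (n + 1)) (Fin (n + 1)) F) id := fun i j hij => hg i j hij
    have h2 : Matrix.BlockTriangular ((g : Matrix (Fin (n + 1)) (Fin (n + 1)) F)⁻¹) id :=
      Matrix.blockTriangular_inv_of_blockTriangular h1
    have h3 : ∀ i j, j < i → (g⁻¹ : GL (Fin (n + 1)) F) i j = 0 := by
      intro i j hij
      change ((g⁻¹ : GL (Fin (n + 1)) F) : Matrix (Fin (n + 1)) (Fin (n + 1)) F) i j = 0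
      rw [hinv]
      exact h2 hij
    refine ⟨h3, fun i => ?_⟩
    have h4 : ((g : Matrix (Fin (n + 1)) (Fin (n + 1)) F) * ((g⁻¹ : GL (Fin (n + 1)) F) : Matrix (Fin (n + 1)) (Fin (n + 1)) F)) i i = 1 := by
      rw [← Units.val_mul, mul_inv_cancel]
      simp
    rw [Matrix.mul_apply, Finset.sum_eq_single i] at h4
    · change g i i * (g⁻¹ : GL (Fin (n + 1)) F) i i = 1 at h4
      rw [hg', one_mul] at h4
      exact h4
    · intro k _ hk
      rcases lt_or_gt_of_ne hk with hk | hk
      · have h5 : (g : Matrix (Fin (n + 1)) (Fin (n + 1)) F) i k = 0 := hg i k hk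
        rw [h5, zero_mul]
      · have h5 : ((g⁻¹ : GL (Fin (n + 1)) F) : Matrix (Fin (n + 1)) (Fin (n + 1)) F) k i = 0 := h3 k i hk
        rw [h5, mul_zero]
    · intro hi
      exact absurd (Finset.mem_univ i) hi

theorem mem_U {g : GL (Fin (n + 1)) F} :
    g ∈ U n F ↔ (∀ i j, j < i → g i j = 0) ∧ ∀ i, g i i = 1 := Iff.rfl

/-- The group of monomial matrices. -/
def N (n : ℕ) (F : Type*) [Field F] : Subgroup (GL (Fin (n + 1)) F) where
  carrier := {g | ∃ σ : Perm (Fin (n + 1)), ∃ c, g = pm σ * dgl c}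
  one_mem' := ⟨1, 1, by simp⟩
  mul_mem' := by
    rintro _ _ ⟨σ, c, rfl⟩ ⟨τ, d, rfl⟩
    refine ⟨σ * τ, (fun j => c (τ j)) * d, ?_⟩
    rw [map_mul, map_mul, mul_assoc, ← mul_assoc (dgl c), dgl_mul_pm]
    simp only [mul_assoc]
  inv_mem' := by
    rintro _ ⟨σ, c, rfl⟩
    refine ⟨σ⁻¹, fun j => (c (σ⁻¹ j))⁻¹, ?_⟩
    rw [_root_.mul_inv_rev, ← map_inv, ← map_inv, dgl_mul_pm]
    rfl

theorem mem_N {g : GL (Fin (n + 1)) F} : g ∈ N n F ↔ ∃ σ, ∃ c, g = pm σ * dgl c := Iff.rfl

theorem pm_mul_dgl_apply (σ : Perm (Fin (n + 1))) (c : Fin (n + 1) → Fˣ) (i j : Fin (n + 1)) :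
    (pm σ * dgl c : GL (Fin (n + 1)) F) i j = if i = σ j then (c j : F) else 0 := by
  change ((Matrix.of fun i j => if i = σ j then (1 : F) else 0) *
    diagonal fun j => (c j : F)) i j = _
  rw [mul_diagonal]
  simp only [of_apply]
  split_ifs <;> simp

theorem pm_dgl_unique {σ τ : Perm (Fin (n + 1))} {c d : Fin (n + 1) → Fˣ}
    (h : (pm σ * dgl c : GL (Fin (n + 1)) F) = pm τ * dgl d) : σ = τ := by
  ext j
  have h1 := congrArg (fun g : GL (Fin (n + 1)) F => g (σ j) j) h
  simp only [pm_mul_dgl_apply, if_true] at h1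
  split_ifs at h1 with h2
  · rw [h2]
  · exact absurd h1 (c j).ne_zero

/-- The permutation of a monomial matrix. -/
noncomputable def nu (n : ℕ) (F : Type*) [Field F] : N n F →* Perm (Fin (n + 1)) :=
  MonoidHom.mk' (fun g => Classical.choose g.2) (by
    rintro g h
    obtain ⟨c, hc⟩ := Classical.choose_spec g.2
    obtain ⟨d, hd⟩ := Classical.choose_spec h.2
    obtain ⟨e, he⟩ := Classical.choose_spec (g * h).2
    have h1 : ((g * h : N n F) : GL (Fin (n + 1)) F) = pm (Classical.choose g.2 *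
        Classical.choose h.2) * dgl ((fun j => c (Classical.choose h.2 j)) * d) := by
      rw [Subgroup.coe_mul]
      conv_lhs => rw [hc, hd]
      rw [map_mul, map_mul, mul_assoc, ← mul_assoc (dgl c), dgl_mul_pm]
      simp only [mul_assoc]
    exact pm_dgl_unique (he.symm.trans h1))

theorem nu_eq {g : N n F} {σ : Perm (Fin (n + 1))} {c : Fin (n + 1) → Fˣ}
    (h : (g : GL (Fin (n + 1)) F) = pm σ * dgl c) : nu n F g = σ := by
  obtain ⟨d, hd⟩ := Classical.choose_spec g.2
  exact pm_dgl_unique (hd.symm.trans h)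

/-- The simple roots. -/
noncomputable def al (i : Fin n) : T n F →* Fˣ :=
  (MonoidHom.mk' (fun c : Fin (n + 1) → Fˣ => c i.castSucc * (c i.succ)⁻¹) (fun c d => by
    simp only [Pi.mul_apply, mul_inv]
    exact mul_mul_mul_comm _ _ _ _)).comp
      (MonoidHom.ofInjective (dgl_injective (n := n) (F := F))).symm.toMonoidHom

/-- The torus is a product of copies of the multiplicative group. -/
noncomputable def tor (n : ℕ) (F : Type*) [Field F] : (Fin (n + 1) → Fˣ) ≃* T n F :=
  MonoidHom.ofInjective (dgl_injective (n := n) (F := F))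

theorem coe_tor (c : Fin (n + 1) → Fˣ) : (tor n F c : GL (Fin (n + 1)) F) = dgl c := rfl

theorem al_tor (i : Fin n) (c : Fin (n + 1) → Fˣ) :
    al i (tor n F c) = c i.castSucc * (c i.succ)⁻¹ := by
  have h : (MonoidHom.ofInjective (dgl_injective (n := n) (F := F))).symm (tor n F c) = c :=
    (MonoidHom.ofInjective (dgl_injective (n := n) (F := F))).symm_apply_apply c
  change (fun c : Fin (n + 1) → Fˣ => c i.castSucc * (c i.succ)⁻¹)
    ((MonoidHom.ofInjective (dgl_injective (n := n) (F := F))).symm (tor n F c)) = _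
  rw [h]

/-- The Frobenius endomorphism. -/
noncomputable def Fr (p : ℕ) (n : ℕ) (F : Type*) [Field F] [ExpChar F p] :
    GL (Fin (n + 1)) F →* GL (Fin (n + 1)) F :=
  Matrix.GeneralLinearGroup.map (frobenius F p)

end Pool.Agent.Helper89.SX.GLn
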