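import Mathlib
import Pool.Agent.Helper89.SX.GL.St.GC
import Pool.Agent.Helper89.SX.GL.St.GD
import Pool.Agent.Helper89.SX.GL.St.GE
import Pool.Agent.Helper89.SX.GL.St.GF
import Pool.Agent.Helper89.SX.GL.St.GG
import Pool.Agent.Helper89.SX.GL.St.GH
import Pool.Agent.Helper89.SX.GL.St.GI

/-!
# SX-G: the datum of the general linear group `GL_{n+1}` over an algebraic closure of the prime field
-/

set_option autoImplicit false

namespace Pool.Agent.Helper89.SX.GLn

open Matrix Equiv

/-- The general linear group `GL_{n+1}` as an instance of `Datum`: diagonal torus, unitriangular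
group, monomial matrices, Weyl group `Perm (Fin (n + 1))` with the adjacent transpositions,
coordinate embeddings of `SL₂` and the Frobenius `x ↦ x ^ p`. -/
noncomputable def datum (p : ℕ) [Fact p.Prime] (n : ℕ) (F : Type*) [Field F] [CharP F p]
    [Algebra (ZMod p) F] [Algebra.IsAlgebraic (ZMod p) F] :
    Datum p F (GL (Fin (n + 1)) F) (csA n) where
  T := T n F
  U := U n F
  N := N n F
  ν := nu n F
  φ := phi
  α := al
  rank := n + 1
  torus := tor n F
  e := 1
  Fr := Fr p n F
  T_le_N := T_le_N
  ν_surjective := nu_surjective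
  ν_eq_one := nu_eq_one
  conj_U := conj_U
  T_inf_U := T_inf_U
  unipotent := unipotent p
  N_inf_B := N_inf_B
  φ_dg := phi_dg_mem
  φ_up := phi_up_mem
  φ_wt := phi_wt_mem
  ν_wt i := (nu_wt i).trans (csA_simple n i).symm
  conj_φ := conj_phi
  conj_pos g i h a := conj_pos g i (lt_of_not_descent n _ i h) a
  split := split
  generated := generated
  T_inf_GJ := T_inf_GJ
  e_pos := one_pos
  Fr_φ := Fr_phi p
  Fr_torus := Fr_torus p
  Fr_U := Fr_U p
  Fr_fixed := Fr_fixed p (pow_fixed p)
  Fr_finite := Fr_finite p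

end Pool.Agent.Helper89.SX.GLn
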